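import Pool.Agent.P.MP_a2ccc3_ag.Final

/-! The case `j = 0` of Voisin's conjecture for the double covers `w² = Q₁(x₁, s) Q₂(x₂, s)`, among
them the Borcea-Voisin threefolds. -/

open CategoryTheory AlgebraicGeometry Pool.Agent.P.MP_a2ccc3_ag

namespace Pool.Agent.Results.MP_a2ccc3_ag.BorceaVoisin

theorem result (n₁ n₂ : ℕ) (Q₁ Q₂ : Quart) (h₁ : 4 * Q₁.I ^ 3 ≠ Q₁.J ^ 2)
    (h₂ : 4 * Q₂.I ^ 3 ≠ Q₂.J ^ 2) (hc : CY n₁ n₂ Q₁.I Q₁.J Q₂.I Q₂.J)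
    (G : MvPolynomial (Fin 3) ℂ) (X : Var) [IsIntegral X.left] [IsProper X.hom]
    (φ : spec (KumRing Q₁ Q₂ G) ⟶ X) [IsDominant φ.left] : VoisinZero X :=
  voisin_kum h₁ h₂ hc G X φ

end Pool.Agent.Results.MP_a2ccc3_ag.BorceaVoisin
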