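import Pool.Agent.P.MP_a2ccc3_ag.O.Final

/-! Voisin's conjecture, for all `k` and `j`, for the double octics with two fivefold points. -/

open CategoryTheory AlgebraicGeometry Pool.Agent.VO
open Pool.Agent.P.MP_a2ccc3_ag (Var)

namespace Pool.Agent.Results.MP_a2ccc3_ag.Octic

theorem result (D : Oct) (hq : D.α * D.q + D.β ≠ 0) (hΔ : D.α * D.δ ≠ D.β * D.γ) (X : Var)
    [IsProper X.hom] (u : D.U ⟶ X) [IsOpenImmersion u.left] (hb : RatBoundary u) :
    Voisin X :=
  voisin_oct D hq hΔ X u hb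

end Pool.Agent.Results.MP_a2ccc3_ag.Octic
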